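import Mathlib

/-!
# An increasing sequence with a minimal upper bound but no supremum, normal cone

On `C[0,1]` take the cone `{f ≥ 0, f 0 ≥ f 1}`. It is closed and normal. Let `e_j` be the bumps
`e_j t = max 0 (1 - (j+1) t)`. The sequence `- e_j` is increasing, its upper bounds are the
`u ≥ 0` with `u 1 ≤ u 0 + 1`; hence `0` is a minimal upper bound, but it is not below the upper
bound `t`.
-/

set_option autoImplicit false

open scoped unitInterval Topology
open Filter

namespace Pool.Agent.Results.MP_c65f17_an.MinimalNotLeast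

variable {X : Type*} [NormedAddCommGroup X] [NormedSpace ℝ X]

/-- `P` is a closed cone: `P + P ⊆ P`, `λ P ⊆ P` for `λ ≥ 0`, `P ∩ (-P) = {0}`. -/
structure IsClosedCone (P : Set X) : Prop where
  closed : IsClosed P
  add : ∀ x ∈ P, ∀ y ∈ P, x + y ∈ P
  smul : ∀ c : ℝ, 0 ≤ c → ∀ x ∈ P, c • x ∈ P
  salient : P ∩ (-P) = {0}

/-- The order of the cone `P`: `x ≤ y` iff `y - x ∈ P`. -/
def Le (P : Set X) (x y : X) : Prop := y - x ∈ P

/-- The cone `P` is normal: `‖x‖ ≤ C ‖y‖` whenever `0 ≤ x ≤ y`. -/
def IsNormal (P : Set X) : Prop :=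
  ∃ C : ℝ, 1 ≤ C ∧ ∀ x y : X, Le P 0 x → Le P x y → ‖x‖ ≤ C * ‖y‖

/-- The net `x` is increasing. -/
def Increasing {J : Type*} [Preorder J] (P : Set X) (x : J → X) : Prop :=
  ∀ j k, j ≤ k → Le P (x j) (x k)

/-- `u` is an upper bound of the net `x`. -/
def IsUB {J : Type*} (P : Set X) (x : J → X) (u : X) : Prop := ∀ j, Le P (x j) u

/-- `u` is a minimal upper bound of the net `x`. -/
def IsMinimalUB {J : Type*} (P : Set X) (x : J → X) (u : X) : Prop :=
  IsUB P x u ∧ ∀ v, IsUB P x v → v ≠ u → ¬ Le P v u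

/-- `u` is a smallest upper bound (supremum) of the net `x`. -/
def IsSupremum {J : Type*} (P : Set X) (x : J → X) (u : X) : Prop :=
  IsUB P x u ∧ ∀ v, IsUB P x v → Le P u v

/-- The cone `{f ≥ 0, f 1 ≤ f 0}` of `C[0,1]`. -/
def cone : Set C(I, ℝ) := {f | (∀ t, 0 ≤ f t) ∧ f 1 ≤ f 0}

theorem cone_isClosedCone : IsClosedCone cone where
  closed := by
    have h1 : IsClosed {f : C(I, ℝ) | ∀ t, 0 ≤ f t} := by
      simp only [Set.ofPred_forall]
      exact isClosed_iInter fun t =>
        isClosed_le continuous_const (ContinuousEvalConst.continuous_eval_const t)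
    have h2 : IsClosed {f : C(I, ℝ) | f 1 ≤ f 0} :=
      isClosed_le (ContinuousEvalConst.continuous_eval_const 1)
        (ContinuousEvalConst.continuous_eval_const 0)
    exact h1.inter h2
  add := by
    rintro x ⟨hx, hx'⟩ y ⟨hy, hy'⟩
    refine ⟨fun t => ?_, ?_⟩
    · simpa using add_nonneg (hx t) (hy t)
    · simpa using add_le_add hx' hy'
  smul := by
    rintro c hc x ⟨hx, hx'⟩
    refine ⟨fun t => ?_, ?_⟩
    · simpa using mul_nonneg hc (hx t)
    · simpa using mul_le_mul_of_nonneg_left hx' hc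
  salient := by
    ext f
    constructor
    · rintro ⟨⟨h1, -⟩, h2⟩
      have h2' : -f ∈ cone := h2
      obtain ⟨h3, -⟩ := h2'
      ext t
      have a := h1 t
      have b := h3 t
      simp only [ContinuousMap.neg_apply, Left.nonneg_neg_iff] at b
      simpa using le_antisymm b a
    · rintro rfl
      refine ⟨⟨fun t => by simp, by simp⟩, ?_⟩
      show -(0 : C(I, ℝ)) ∈ cone
      rw [neg_zero]
      exact ⟨fun t => by simp, by simp⟩

theorem cone_normal : IsNormal cone := by
  refine ⟨1, le_rfl, ?_⟩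
  rintro x y ⟨h1, -⟩ ⟨h2, -⟩
  rw [one_mul]
  refine (ContinuousMap.norm_le _ (norm_nonneg _)).2 fun t => ?_
  have a := h1 t
  have b := h2 t
  simp only [ContinuousMap.sub_apply, ContinuousMap.zero_apply, sub_zero, sub_nonneg] at a b
  have c := y.norm_coe_le_norm t
  rw [Real.norm_eq_abs] at c ⊢
  rw [abs_of_nonneg a]
  exact b.trans ((le_abs_self _).trans c)

/-- The bump `e_j`. -/
def bump (j : ℕ) : C(I, ℝ) := ⟨fun t => max 0 (1 - (j + 1) * (t : ℝ)), by fun_prop⟩

theorem increasing : Increasing cone (fun j => -bump j) := by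
  intro j k hjk
  have hjk' : (j : ℝ) ≤ k := by exact_mod_cast hjk
  refine ⟨fun t => ?_, ?_⟩
  · have ht : (0 : ℝ) ≤ t := t.2.1
    have : bump k t ≤ bump j t := by
      simp only [bump, ContinuousMap.coe_mk]
      refine max_le_max le_rfl ?_
      nlinarith
    simp only [ContinuousMap.sub_apply, ContinuousMap.neg_apply]
    linarith
  · have h0 : ∀ i, bump i 0 = 1 := by intro i; simp [bump]
    have h1 : ∀ i, bump i 1 = 0 := by
      intro i
      simp only [bump, ContinuousMap.coe_mk, Set.Icc.coe_one, mul_one]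
      have : (0 : ℝ) ≤ i := Nat.cast_nonneg i
      rw [max_eq_left]
      linarith
    simp only [ContinuousMap.sub_apply, ContinuousMap.neg_apply, h0, h1]
    norm_num

theorem nonneg_of_ub {u : C(I, ℝ)} (hu : IsUB cone (fun j => -bump j) u) (t : I) : 0 ≤ u t := by
  -- for `t > 0` the bumps vanish eventually
  have hpos : ∀ t : I, 0 < (t : ℝ) → 0 ≤ u t := by
    intro t ht
    obtain ⟨j, hj⟩ := exists_nat_gt (1 / (t : ℝ))
    have h := (hu j).1 t
    have hz : bump j t = 0 := by
      simp only [bump, ContinuousMap.coe_mk]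
      rw [max_eq_left]
      rw [div_lt_iff₀ ht] at hj
      nlinarith
    simp only [ContinuousMap.sub_apply, ContinuousMap.neg_apply, hz] at h
    linarith
  by_cases ht : 0 < (t : ℝ)
  · exact hpos t ht
  · have ht0 : t = 0 := by
      ext
      exact le_antisymm (not_lt.1 ht) t.2.1
    rw [ht0]
    have hlim : Tendsto (fun n : ℕ => u (⟨1 / ((n : ℝ) + 1), by positivity, by
        rw [div_le_one (by positivity)]; linarith [(Nat.cast_nonneg n : (0 : ℝ) ≤ n)]⟩ : I))
        atTop (𝓝 (u 0)) := by
      apply (u.continuous.tendsto 0).comp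
      rw [tendsto_subtype_rng]
      exact tendsto_one_div_add_atTop_nhds_zero_nat
    exact ge_of_tendsto' hlim fun n => hpos _ (by simp only; positivity)

theorem zero_ub : IsUB cone (fun j => -bump j) 0 := by
  intro j
  refine ⟨fun t => ?_, ?_⟩
  · simp only [ContinuousMap.sub_apply, ContinuousMap.neg_apply, ContinuousMap.zero_apply]
    simp [bump]
  · simp only [ContinuousMap.sub_apply, ContinuousMap.neg_apply, ContinuousMap.zero_apply]
    simp [bump]

theorem minimal : IsMinimalUB cone (fun j => -bump j) 0 := by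
  refine ⟨zero_ub, fun v hv hne hle => hne ?_⟩
  ext t
  have h1 := nonneg_of_ub hv t
  have h2 := hle.1 t
  simp only [ContinuousMap.sub_apply, ContinuousMap.zero_apply] at h2 ⊢
  linarith

/-- The identity function of `[0,1]`. -/
def idf : C(I, ℝ) := ⟨fun t => (t : ℝ), by fun_prop⟩

theorem idf_ub : IsUB cone (fun j => -bump j) idf := by
  intro j
  refine ⟨fun t => ?_, ?_⟩
  · simp only [ContinuousMap.sub_apply, ContinuousMap.neg_apply]
    have h1 : 0 ≤ bump j t := by simp [bump]
    have h2 : 0 ≤ idf t := t.2.1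
    linarith
  · simp [bump, idf]

/-- There are a real Banach space `X`, a closed normal cone `P` in `X` and an increasing sequence
which has a minimal upper bound but no supremum. -/
theorem result : ∃ (X : Type) (_ : NormedAddCommGroup X) (_ : NormedSpace ℝ X)
    (_ : CompleteSpace X) (P : Set X) (x : ℕ → X),
    IsClosedCone P ∧ IsNormal P ∧ Increasing P x ∧
    (∃ u, IsMinimalUB P x u) ∧ ¬ ∃ u, IsSupremum P x u := by
  refine ⟨C(I, ℝ), inferInstance, inferInstance, inferInstance, cone, fun j => -bump j,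
    cone_isClosedCone, cone_normal, increasing, ⟨0, minimal⟩, ?_⟩
  rintro ⟨s, hs, hs'⟩
  have h0 : s = 0 := by
    by_contra hne
    exact minimal.2 s hs hne (hs' 0 zero_ub)
  have h1 := (hs' idf idf_ub).2
  rw [h0] at h1
  simp [idf] at h1
  linarith

end Pool.Agent.Results.MP_c65f17_an.MinimalNotLeast
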